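import Pool.Agent.W2helper81.IW.Defs

/-!
# Project IW (helper81, MP_519cc8_nt), piece RAM: a bounded number of ramified primes in the layers
-/

set_option autoImplicit false

namespace Pool.Agent.W2helper71.IW

open IntermediateField Module Pool.Agent.Q60.MU Pool.Agent.W5h77.MB Pool.Agent.W2helper81.IW
open scoped Pointwise

/-- refinement from the classes under `R` to the classes under `K ⊓ R` -/
lemma refine_classes {G X : Type*} [Group G] [MulAction G X] [DecidableEq X] (K R : Subgroup G)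
    (hK : K.index ≠ 0) (S : Finset X) : ∃ T : Finset X, T.card ≤ S.card * K.index ∧
      ∀ B ∈ S, ∀ σ ∈ R, ∃ B' ∈ T, ∃ τ ∈ K ⊓ R, σ • B = τ • B' := by
  classical
  have hKi : K.FiniteIndex := ⟨hK⟩
  have hfin : Finite (G ⧸ K) := Subgroup.finite_quotient_of_finiteIndex
  have := Fintype.ofFinite (G ⧸ K)
  have hrep : ∀ q : G ⧸ K, ∃ ρ : G, ρ ∈ R ∧ ((∃ ρ' ∈ R, ((ρ'⁻¹ : G) : G ⧸ K) = q) →
      ((ρ⁻¹ : G) : G ⧸ K) = q) := by
    intro q
    by_cases h : ∃ ρ' ∈ R, ((ρ'⁻¹ : G) : G ⧸ K) = q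
    · obtain ⟨ρ', h1, h2⟩ := h
      exact ⟨ρ', h1, fun _ => h2⟩
    · exact ⟨1, R.one_mem, fun h' => absurd h' h⟩
  choose rep hrepR hrepq using hrep
  refine ⟨(S ×ˢ (Finset.univ : Finset (G ⧸ K))).image fun b => rep b.2 • b.1, ?_, ?_⟩
  · refine Finset.card_image_le.trans ?_
    rw [Finset.card_product, Finset.card_univ, ← Nat.card_eq_fintype_card]
    exact le_rfl
  · intro B hB σ hσ
    set q : G ⧸ K := ((σ⁻¹ : G) : G ⧸ K) with hq
    have h1 := hrepq q ⟨σ, hσ, rfl⟩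
    refine ⟨rep q • B, Finset.mem_image.2 ⟨(B, q), by simp [hB], rfl⟩, σ * (rep q)⁻¹, ⟨?_, ?_⟩, ?_⟩
    · have h2 : ((σ⁻¹ : G) : G ⧸ K) = (((rep q)⁻¹ : G) : G ⧸ K) := h1.symm
      rw [QuotientGroup.eq, inv_inv] at h2
      exact h2
    · exact R.mul_mem hσ (R.inv_mem (hrepR q))
    · rw [← mul_smul, inv_mul_cancel_right]

theorem RAM_ok : P_RAM := by
  classical
  intro hFD p hp hp2 K N hKfd hNfd
  obtain ⟨c, hc0, hc⟩ := exists_bad N
  choose! t ht using fun ℓ => hFD p hp hp2 ℓ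
  refine ⟨(∑ ℓ ∈ c.primeFactors, t ℓ) * finrank ℚ K, fun m R hR => ?_⟩
  have hT : ∀ ℓ, ∃ T : Finset (ValuationSubring Qb), ℓ.Prime → T.card ≤ t ℓ ∧
      ∀ A : ValuationSubring Qb, (ℓ : Qb) ∈ A.nonunits → ∃ B ∈ T, ∃ σ ∈ R.fixingSubgroup, A = σ • B := by
    intro ℓ
    by_cases hℓ : ℓ.Prime
    · obtain ⟨T, h1, h2⟩ := ht ℓ hℓ m R hR
      exact ⟨T, fun _ => ⟨h1, h2⟩⟩
    · exact ⟨∅, fun h => absurd h hℓ⟩
  choose T hT using hT
  have hidx : K.fixingSubgroup.index ≠ 0 := index_ne_zero' K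
  obtain ⟨T', hT1, hT2⟩ := refine_classes K.fixingSubgroup R.fixingSubgroup hidx
    (c.primeFactors.biUnion T)
  refine ⟨T', hT1.trans ?_, fun A => ?_⟩
  · rw [finrank_eq_fixingSubgroup_index]
    refine Nat.mul_le_mul_right _ (Finset.card_biUnion_le.trans (Finset.sum_le_sum fun ℓ hℓ => ?_))
    exact (hT ℓ (Nat.prime_of_mem_primeFactors hℓ)).1
  · by_cases h : inertia A ≤ N.fixingSubgroup
    · exact Or.inl ((inf_le_left.trans inf_le_left).trans h)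
    · right
      obtain ⟨σ, hσ, hσN⟩ := SetLike.not_le_iff_exists.1 h
      obtain ⟨ℓ, hℓ, hℓA⟩ := exists_prime hc0 (hc A σ hσ hσN)
      obtain ⟨B, hB, σ', hσ', h3⟩ := (hT ℓ (Nat.prime_of_mem_primeFactors hℓ)).2 A hℓA
      obtain ⟨B', hB', τ, hτ, h4⟩ := hT2 B (Finset.mem_biUnion.2 ⟨ℓ, hℓ, hB⟩) σ' hσ'
      exact ⟨B', hB', τ, hτ, h3.trans h4⟩

end Pool.Agent.W2helper71.IW
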